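import Pool.Agent.H43.AffSpace

set_option autoImplicit false

/-!
# Affine spaces with intersection sizes congruent to 1 mod s coincide

Let `p` be a prime, `s ≥ 10`, `p ≡ 1 (mod s)` and let `A'` be a copy of `AG(d, p)` on the point set
`F_p^d` of `A = AG(d, p)`, transported by a permutation `g`. If every nonempty intersection of a
subspace of `A` with a subspace of `A'` has size `≡ 1 (mod s)`, then `A' = A`.
-/

namespace Pool.Agent.Results.MP_66067f_co.SpacesCoincide

open Finset Pool.Agent.H43.Aff

/-- The subspaces (flats) of `AG(d, p)`: all cosets `v + W` of linear subspaces `W` of `F_p^d`. -/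
def flats (p d : ℕ) : Set (Set (Fin d → ZMod p)) :=
  {X | ∃ (v : Fin d → ZMod p) (W : Submodule (ZMod p) (Fin d → ZMod p)), X = {x | x - v ∈ W}}

/-- The subspaces of the copy of `AG(d, p)` obtained by transport along the permutation `g`. -/
def transported (p d : ℕ) (g : Equiv.Perm (Fin d → ZMod p)) : Set (Set (Fin d → ZMod p)) :=
  (fun Y => g '' Y) '' flats p d

/-- The condition on the two affine spaces: all nonempty intersections of a subspace of the first
with a subspace of the second have size congruent to 1 modulo `s`. -/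
def Compatible (s p d : ℕ) (g : Equiv.Perm (Fin d → ZMod p)) : Prop :=
  ∀ X ∈ flats p d, ∀ Y' ∈ transported p d g, X ∩ Y' = ∅ ∨ (X ∩ Y').ncard ≡ 1 [MOD s]

variable {p : ℕ} [hp : Fact p.Prime] {d : ℕ}

/-- the line through `b` with direction `a` -/
def line (a b : Fin d → ZMod p) : Set (Fin d → ZMod p) := {x | ∃ τ : ZMod p, x = b + τ • a}

theorem line_mem_flats (a b : Fin d → ZMod p) : line a b ∈ flats p d := by
  refine ⟨b, Submodule.span (ZMod p) {a}, ?_⟩
  ext x
  simp only [line, Set.mem_ofPred_eq, Submodule.mem_span_singleton]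
  constructor
  · rintro ⟨τ, rfl⟩
    exact ⟨τ, by simp⟩
  · rintro ⟨τ, h⟩
    exact ⟨τ, by rw [h]; simp⟩

theorem ncard_line (a b : Fin d → ZMod p) (ha : a ≠ 0) : (line a b).ncard = p := by
  classical
  have h : line a b = Set.range (fun τ : ZMod p => b + τ • a) := by
    ext x
    simp only [line, Set.mem_ofPred_eq, Set.mem_range]
    constructor
    · rintro ⟨τ, rfl⟩; exact ⟨τ, rfl⟩
    · rintro ⟨τ, rfl⟩; exact ⟨τ, rfl⟩
  rw [h, ← Set.image_univ, Set.ncard_image_of_injective, Set.ncard_univ, Nat.card_zmod]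
  intro τ τ' h
  simp only [add_right_inj] at h
  exact smul_left_injective (ZMod p) ha h

theorem hyperplane_mem_flats (c : Fin d → ZMod p) (v : Fin d → ZMod p) :
    {x : Fin d → ZMod p | c ⬝ᵥ x = c ⬝ᵥ v} ∈ flats p d := by
  refine ⟨v, { carrier := {w | c ⬝ᵥ w = 0}, add_mem' := ?_, zero_mem' := ?_, smul_mem' := ?_ }, ?_⟩
  · intro w w' h h'
    simp only [Set.mem_ofPred_eq] at *
    rw [dotProduct_add, h, h', add_zero]
  · simp
  · intro r w h
    simp only [Set.mem_ofPred_eq] at *
    rw [dotProduct_smul, h, smul_zero]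
  · ext x
    simp only [Set.mem_ofPred_eq, Submodule.mem_mk, AddSubmonoid.mem_mk, AddSubsemigroup.mem_mk]
    rw [dotProduct_sub, sub_eq_zero]

/-- The images of lines are lines. -/
theorem image_line {s : ℕ} (hs : 10 ≤ s) (hps : p ≡ 1 [MOD s]) (g : Equiv.Perm (Fin d → ZMod p))
    (h : Compatible s p d g) (a b : Fin d → ZMod p) (ha : a ≠ 0) :
    ∃ a' b' : Fin d → ZMod p, a' ≠ 0 ∧ g '' line a b = line a' b' := by
  classical
  have hp2 := hp.1.two_le
  obtain ⟨S, hScoe⟩ : ∃ S : Finset (Fin d → ZMod p), (S : Set (Fin d → ZMod p)) = g '' line a b :=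
    ⟨(Set.toFinite (g '' line a b)).toFinset, by simp⟩
  have hScard : S.card = p := by
    rw [← Set.ncard_coe_finset, hScoe, Set.ncard_image_of_injective _ g.injective,
      ncard_line a b ha]
  obtain ⟨e, he⟩ : ∃ e, p = s * e + 1 := by
    have h1 : s ∣ p - 1 := (Nat.modEq_iff_dvd' (by omega)).1 hps.symm
    obtain ⟨e, he⟩ := h1
    exact ⟨e, by omega⟩
  obtain ⟨a', b', ha', h'⟩ := space S hScard hs he (by
    intro c _ γ
    by_cases hne : (S.filter fun v => c ⬝ᵥ v = γ) = ∅
    · left
      rw [hne]; simp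
    · obtain ⟨v, hv⟩ := Finset.nonempty_iff_ne_empty.2 hne
      rw [Finset.mem_filter] at hv
      have h1 := h _ (hyperplane_mem_flats c v) _ ⟨line a b, line_mem_flats a b, rfl⟩
      have h2 : ({x : Fin d → ZMod p | c ⬝ᵥ x = c ⬝ᵥ v} ∩ (fun Y => g '' Y) (line a b)) =
          ((S.filter fun v => c ⬝ᵥ v = γ : Finset (Fin d → ZMod p)) : Set (Fin d → ZMod p)) := by
        ext x
        simp only [Finset.coe_filter, Set.mem_inter_iff, Set.mem_ofPred_eq]
        rw [← hScoe, Finset.mem_coe, hv.2]
        tauto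
      rw [h2, Set.ncard_coe_finset] at h1
      rcases h1 with h1 | h1
      · exfalso
        apply hne
        exact_mod_cast h1
      · set n := (S.filter fun v => c ⬝ᵥ v = γ).card with hn
        have hn0 : 0 < n := Finset.card_pos.2 ⟨v, Finset.mem_filter.2 hv⟩
        have h3 : s ∣ n - 1 := (Nat.modEq_iff_dvd' (by omega)).1 h1.symm
        obtain ⟨q, hq⟩ := h3
        rcases q with _ | q
        · left; omega
        · right
          have : s * (q + 1) = s * q + s := by ring
          have h5 : 0 ≤ s * q := Nat.zero_le _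
          omega)
  refine ⟨a', b', ha', ?_⟩
  rw [← hScoe, h']
  rfl

/-- In odd characteristic a nonempty set closed under lines is a flat. -/
theorem mem_flats_of_lines (hp3 : p ≠ 2) {X : Set (Fin d → ZMod p)} {v : Fin d → ZMod p}
    (hv : v ∈ X) (hX : ∀ u ∈ X, ∀ w ∈ X, u ≠ w → line (w - u) u ⊆ X) : X ∈ flats p d := by
  have h2 : (2 : ZMod p) ≠ 0 := by
    intro h
    have h1 : ((2 : ℕ) : ZMod p) = 0 := by exact_mod_cast h
    rw [ZMod.natCast_eq_zero_iff] at h1
    exact hp3 ((Nat.prime_dvd_prime_iff_eq hp.1 Nat.prime_two).1 h1)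
  have hX' : ∀ u ∈ X, ∀ w ∈ X, ∀ τ : ZMod p, u + τ • (w - u) ∈ X := by
    intro u hu w hw τ
    by_cases huw : u = w
    · subst huw; simpa using hu
    · exact hX u hu w hw huw ⟨τ, rfl⟩
  refine ⟨v, { carrier := {w | v + w ∈ X}, add_mem' := ?_, zero_mem' := ?_, smul_mem' := ?_ }, ?_⟩
  · intro w w' h h'
    simp only [Set.mem_ofPred_eq] at *
    have e1 : v + (2 : ZMod p) • w ∈ X := by
      have := hX' v hv _ h 2
      simpa using this
    have e2 : v + (2 : ZMod p) • w' ∈ X := by
      have := hX' v hv _ h' 2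
      simpa using this
    have e3 := hX' _ e1 _ e2 ((2 : ZMod p)⁻¹)
    have e4 : v + (2 : ZMod p) • w + (2 : ZMod p)⁻¹ • (v + (2 : ZMod p) • w' -
        (v + (2 : ZMod p) • w)) = v + (w + w') := by
      funext l
      simp only [Pi.add_apply, Pi.smul_apply, Pi.sub_apply, smul_eq_mul]
      field_simp
      ring
    rwa [e4] at e3
  · simpa using hv
  · intro r w h
    simp only [Set.mem_ofPred_eq] at *
    have := hX' v hv _ h r
    simpa using this
  · ext x
    simp only [Set.mem_ofPred_eq, Submodule.mem_mk, AddSubmonoid.mem_mk, AddSubsemigroup.mem_mk]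
    rw [add_sub_cancel]

theorem line_subset_of_mem_flats {X : Set (Fin d → ZMod p)} (hX : X ∈ flats p d)
    {u w : Fin d → ZMod p} (hu : u ∈ X) (hw : w ∈ X) : line (w - u) u ⊆ X := by
  obtain ⟨v, W, rfl⟩ := hX
  rintro x ⟨τ, rfl⟩
  simp only [Set.mem_ofPred_eq] at *
  have : u + τ • (w - u) - v = (u - v) + τ • ((w - v) - (u - v)) := by
    simp only [sub_sub_sub_cancel_right]
    abel
  rw [this]
  exact W.add_mem hu (W.smul_mem _ (W.sub_mem hw hu))

/-- Two points of a line determine it. -/
theorem line_eq {a b u w : Fin d → ZMod p} (hu : u ∈ line a b) (hw : w ∈ line a b)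
    (huw : u ≠ w) : line (w - u) u = line a b := by
  obtain ⟨τ, rfl⟩ := hu
  obtain ⟨σ, rfl⟩ := hw
  have hτσ : σ - τ ≠ 0 := by
    intro h
    apply huw
    rw [sub_eq_zero.1 h]
  ext x
  simp only [line, Set.mem_ofPred_eq]
  constructor
  · rintro ⟨ρ, rfl⟩
    refine ⟨τ + ρ * (σ - τ), ?_⟩
    funext l
    simp only [Pi.add_apply, Pi.smul_apply, Pi.sub_apply, smul_eq_mul]
    ring
  · rintro ⟨ρ, rfl⟩
    refine ⟨(ρ - τ) / (σ - τ), ?_⟩
    funext l
    simp only [Pi.add_apply, Pi.smul_apply, Pi.sub_apply, smul_eq_mul]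
    field_simp
    ring

theorem main {s : ℕ} (hs : 10 ≤ s) (hps : p ≡ 1 [MOD s]) (g : Equiv.Perm (Fin d → ZMod p))
    (h : Compatible s p d g) : transported p d g = flats p d := by
  classical
  have hp2 := hp.1.two_le
  have hp3 : p ≠ 2 := by
    rintro rfl
    have h1 : s ∣ 2 - 1 := (Nat.modEq_iff_dvd' (by omega)).1 hps.symm
    have := Nat.le_of_dvd (by norm_num) h1
    omega
  have hsub : transported p d g ⊆ flats p d := by
    rintro _ ⟨X, hX, rfl⟩
    have hne : ∃ v, v ∈ X := by
      obtain ⟨v, W, rfl⟩ := hX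
      exact ⟨v, by simp⟩
    obtain ⟨v, hv⟩ := hne
    show g '' X ∈ flats p d
    apply mem_flats_of_lines hp3 (Set.mem_image_of_mem g hv)
    rintro _ ⟨u, hu, rfl⟩ _ ⟨w, hw, rfl⟩ huw
    have huw' : u ≠ w := fun h => huw (by rw [h])
    obtain ⟨a', b', _, h'⟩ := image_line hs hps g h (w - u) u (sub_ne_zero.2 huw'.symm)
    have h1 : g u ∈ line a' b' := by
      rw [← h']
      exact Set.mem_image_of_mem g ⟨0, by simp⟩
    have h2 : g w ∈ line a' b' := by
      rw [← h']
      exact Set.mem_image_of_mem g ⟨1, by simp⟩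
    rw [line_eq h1 h2 huw, ← h']
    exact Set.image_mono (line_subset_of_mem_flats hX hu hw)
  have hinj : Function.Injective (fun Y : Set (Fin d → ZMod p) => g '' Y) :=
    Set.image_injective.2 g.injective
  apply Set.eq_of_subset_of_ncard_le hsub
  unfold transported
  rw [Set.ncard_image_of_injective _ hinj]

omit hp in
/-- Sanity check: the condition `Compatible` is satisfiable, for instance by the identity (the
intersection of two flats is empty or a flat, which has `p ^ k ≡ 1 (mod s)` points). -/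
theorem compatible_refl [Fact p.Prime] {s : ℕ} (hps : p ≡ 1 [MOD s]) :
    Compatible s p d (Equiv.refl _) := by
  rintro X hX _ ⟨Y, hY, rfl⟩
  by_cases hne : X ∩ Y = ∅
  · left
    simpa using hne
  right
  obtain ⟨v, hvX, hvY⟩ := Set.nonempty_iff_ne_empty.2 hne
  obtain ⟨x, W, rfl⟩ := hX
  obtain ⟨y, U, rfl⟩ := hY
  have h1 : ({z | z - x ∈ W} ∩ (fun Y => (Equiv.refl (Fin d → ZMod p)) '' Y) {z | z - y ∈ U}) =
      (fun w => v + w) '' ((W ⊓ U : Submodule (ZMod p) (Fin d → ZMod p)) : Set _) := by
    ext z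
    simp only [Equiv.coe_refl, Set.image_id, Set.mem_inter_iff, Set.mem_ofPred_eq, Set.mem_image,
      SetLike.mem_coe, Submodule.mem_inf] at *
    constructor
    · rintro ⟨hz1, hz2⟩
      refine ⟨z - v, ⟨?_, ?_⟩, by abel⟩
      · have := W.sub_mem hz1 hvX
        simpa using this
      · have := U.sub_mem hz2 hvY
        simpa using this
    · rintro ⟨w, ⟨hw1, hw2⟩, rfl⟩
      constructor
      · have := W.add_mem hvX hw1
        have e : v + w - x = v - x + w := by abel
        rw [e]; exact this
      · have := U.add_mem hvY hw2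
        have e : v + w - y = v - y + w := by abel
        rw [e]; exact this
  rw [h1, Set.ncard_image_of_injective _ (add_right_injective v)]
  have h2 : ((W ⊓ U : Submodule (ZMod p) (Fin d → ZMod p)) : Set (Fin d → ZMod p)).ncard =
      p ^ Module.finrank (ZMod p) (W ⊓ U : Submodule (ZMod p) (Fin d → ZMod p)) := by
    rw [← Nat.card_coe_set_eq]
    have := Module.natCard_eq_pow_finrank (K := ZMod p)
      (V := (W ⊓ U : Submodule (ZMod p) (Fin d → ZMod p)))
    rw [Nat.card_zmod] at this
    exact this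
  rw [h2]
  have := hps.pow (Module.finrank (ZMod p) (W ⊓ U : Submodule (ZMod p) (Fin d → ZMod p)))
  rwa [one_pow] at this

/-- **Main theorem.** For every `s ≥ 10` (in particular for every `s ≥ 14`), every prime
`p ≡ 1 (mod s)` and every dimension `d`: if `A'` is a copy of `AG(d, p)` on the point set of
`A = AG(d, p)`, transported by a permutation `g` of the points, and if every nonempty intersection
of a subspace of `A` with a subspace of `A'` has size congruent to 1 modulo `s`, then the two
spaces have the same subspaces, `A' = A`. -/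
theorem result : ∀ s p d : ℕ, 10 ≤ s → p.Prime → p ≡ 1 [MOD s] →
    ∀ g : Equiv.Perm (Fin d → ZMod p), Compatible s p d g → transported p d g = flats p d := by
  intro s p d hs hp hps g h
  have : Fact p.Prime := ⟨hp⟩
  exact main hs hps g h

end Pool.Agent.Results.MP_66067f_co.SpacesCoincide
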